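import Mathlib

/-!
# The second derived set of every subset of a `T₀` space is closed

Suppose `p` lies in the closure of `(A^d)^d` but not in `(A^d)^d`. Then some open `U ∋ p` meets
`A^d` at most in `p`, and contains a point `q ≠ p` of `(A^d)^d`. As `q` is an accumulation point of
`A^d`, every neighbourhood of `q` contains `p`, and `p ∈ A^d`. As `q ∉ A^d`, some open `V ∋ q` meets
`A` at most in `q`; it contains `p`, and as `p` is an accumulation point of `A`, every
neighbourhood of `p` contains `q`. This contradicts the `T₀` axiom.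
-/

set_option autoImplicit false

open Set Topology

namespace Pool.Agent.Results.MP_091ced_gt.SecondDerivedClosed

universe u

/-- The derived set of `A`: the points `x` which lie in the closure of `A \ {x}`. -/
def derived {X : Type u} [TopologicalSpace X] (A : Set X) : Set X :=
  {x | x ∈ closure (A \ {x})}

/-- In every `T₀` space the second derived set of every subset is closed. -/
theorem result (X : Type u) [TopologicalSpace X] [T0Space X] (A : Set X) :
    IsClosed (derived (derived A)) := by
  rw [← closure_subset_iff_isClosed]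
  intro p hp
  by_contra hpn
  -- a neighbourhood of `p` which meets `derived A` at most in `p`
  have h1 : ∃ U : Set X, IsOpen U ∧ p ∈ U ∧ ∀ z ∈ U, z ∈ derived A → z = p := by
    have hpn' : p ∉ closure (derived A \ {p}) := hpn
    rw [mem_closure_iff] at hpn'
    push Not at hpn'
    obtain ⟨U, hU, hpU, hUe⟩ := hpn'
    refine ⟨U, hU, hpU, fun z hz hzA => ?_⟩
    by_contra hzp
    have : z ∈ U ∩ (derived A \ {p}) := ⟨hz, hzA, hzp⟩
    rw [hUe] at this
    exact this
  obtain ⟨U, hU, hpU, hUA⟩ := h1
  obtain ⟨q, hqU, hq⟩ := mem_closure_iff.1 hp U hU hpU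
  have hqp : q ≠ p := fun h => hpn (h ▸ hq)
  have hq' : q ∈ closure (derived A \ {q}) := hq
  -- every neighbourhood of `q` contains `p`, and `p` is an accumulation point of `A`
  have h2 : ∀ W : Set X, IsOpen W → q ∈ W → p ∈ W ∧ p ∈ derived A := by
    intro W hW hqW
    obtain ⟨z, ⟨hzW, hzU⟩, hzA, -⟩ := mem_closure_iff.1 hq' (W ∩ U) (hW.inter hU) ⟨hqW, hqU⟩
    have : z = p := hUA z hzU hzA
    rw [← this]
    exact ⟨hzW, hzA⟩
  have hpA : p ∈ closure (A \ {p}) := (h2 univ isOpen_univ trivial).2
  have hqA : q ∉ derived A := fun h => hqp (hUA q hqU h)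
  -- a neighbourhood of `q` which meets `A` at most in `q`
  have h3 : ∃ V : Set X, IsOpen V ∧ q ∈ V ∧ ∀ z ∈ V, z ∈ A → z = q := by
    have hqn : q ∉ closure (A \ {q}) := hqA
    rw [mem_closure_iff] at hqn
    push Not at hqn
    obtain ⟨V, hV, hqV, hVe⟩ := hqn
    refine ⟨V, hV, hqV, fun z hz hzA => ?_⟩
    by_contra hzp
    have : z ∈ V ∩ (A \ {q}) := ⟨hz, hzA, hzp⟩
    rw [hVe] at this
    exact this
  obtain ⟨V, hV, hqV, hVA⟩ := h3
  have hpV : p ∈ V := (h2 V hV hqV).1
  -- every neighbourhood of `p` contains `q`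
  have h4 : ∀ W : Set X, IsOpen W → p ∈ W → q ∈ W := by
    intro W hW hpW
    obtain ⟨z, ⟨hzW, hzV⟩, hzA, -⟩ := mem_closure_iff.1 hpA (W ∩ V) (hW.inter hV) ⟨hpW, hpV⟩
    rw [← hVA z hzV hzA]
    exact hzW
  refine hqp (inseparable_iff_forall_isOpen.2 fun W hW => ?_).eq
  exact ⟨fun h => (h2 W hW h).1, fun h => h4 W hW h⟩

end Pool.Agent.Results.MP_091ced_gt.SecondDerivedClosed
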